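import Pool.Agent.Helper50.VD.St

open MeasureTheory Set Filter Topology
open scoped ENNReal

noncomputable section

namespace VD.M_P1b

/-- the logarithm in the kernel -/
def Fk (X Z : ℝ) (y : ℝ × ℝ) : ℝ :=
  Real.log (((X - y.1) ^ 2 + (Z + y.2) ^ 2) / ((X - y.1) ^ 2 + (Z - y.2) ^ 2))

theorem hasDerivAt_Ft (ξ : ℝ) (hξ : ξ ≠ 0) (u : ℝ) :
    HasDerivAt (Ft ξ) (Real.log (ξ ^ 2 + u ^ 2)) u := by
  have hpos : 0 < ξ ^ 2 + u ^ 2 := by positivity
  have h1 : HasDerivAt (fun u : ℝ => ξ ^ 2 + u ^ 2) (2 * u) u := by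
    simpa using (hasDerivAt_pow 2 u).const_add (ξ ^ 2)
  have h2 := h1.log hpos.ne'
  have h3 := (hasDerivAt_id u).mul h2
  have h4 : HasDerivAt (fun u : ℝ => u / ξ) (1 / ξ) u := (hasDerivAt_id u).div_const ξ
  have h5 := h4.arctan
  have h6 := ((h3.sub ((hasDerivAt_id u).const_mul 2)).add (h5.const_mul (2 * ξ)))
  have heq : Ft ξ = fun u => u * Real.log (ξ ^ 2 + u ^ 2) - 2 * u + 2 * ξ * Real.arctan (u / ξ) := rfl
  rw [heq]
  refine h6.congr_deriv ?_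
  have hne : ξ ^ 2 + u ^ 2 ≠ 0 := hpos.ne'
  simp only [id]
  have h7 : 1 + (u / ξ) ^ 2 = (ξ ^ 2 + u ^ 2) / ξ ^ 2 := by field_simp
  rw [h7]
  field_simp
  ring

theorem Ft_neg (ξ u : ℝ) : Ft ξ (-u) = -Ft ξ u := by
  unfold Ft
  rw [neg_sq, neg_div, Real.arctan_neg]
  ring

theorem Ft_neg_left (ξ u : ℝ) : Ft (-ξ) u = Ft ξ u := by
  unfold Ft
  rw [neg_sq, div_neg, Real.arctan_neg]
  ring

theorem Th_neg (ξ h Z : ℝ) : Th (-ξ) h Z = Th ξ h Z := by
  unfold Th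
  rw [Ft_neg_left, Ft_neg_left, Ft_neg_left]

theorem inner (ξ h Z : ℝ) (hξ : ξ ≠ 0) :
    ∫ s in (0 : ℝ)..h, Real.log ((ξ ^ 2 + (Z + s) ^ 2) / (ξ ^ 2 + (Z - s) ^ 2)) = Th ξ h Z := by
  have hpos : ∀ u : ℝ, 0 < ξ ^ 2 + u ^ 2 := fun u => by positivity
  have hd : ∀ s : ℝ, HasDerivAt (fun s => Ft ξ (Z + s) + Ft ξ (Z - s))
      (Real.log ((ξ ^ 2 + (Z + s) ^ 2) / (ξ ^ 2 + (Z - s) ^ 2))) s := by
    intro s
    have h1 := (hasDerivAt_Ft ξ hξ (Z + s)).comp s ((hasDerivAt_id s).const_add Z)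
    have h2 := (hasDerivAt_Ft ξ hξ (Z - s)).comp s ((hasDerivAt_id s).const_sub Z)
    have h3 := h1.add h2
    refine h3.congr_deriv ?_
    rw [Real.log_div (hpos _).ne' (hpos _).ne']
    ring
  rw [intervalIntegral.integral_eq_sub_of_hasDerivAt (fun s _ => hd s)]
  · unfold Th
    have h1 : Ft ξ (Z - h) = -Ft ξ (h - Z) := by rw [← Ft_neg]; congr 1; ring
    rw [h1, add_zero, sub_zero, add_comm Z h]
    ring
  · apply Continuous.intervalIntegrable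
    apply Continuous.log
    · apply Continuous.div
      · fun_prop
      · fun_prop
      · exact fun s => (hpos _).ne'
    · exact fun s => (div_pos (hpos _) (hpos _)).ne'

/-- the column function -/
def cc (X Z x : ℝ) : ℝ := ∫ s : ℝ, (PB 1).indicator (Fk X Z) (x, s)

theorem cc_eq (X Z x h' : ℝ) (hx : x ≠ X) (hh : 0 ≤ h')
    (hs : ∀ s : ℝ, ((x, s) : ℝ × ℝ) ∈ PB 1 ↔ 0 < s ∧ s < h') : cc X Z x = Th (x - X) h' Z := by
  unfold cc
  have h1 : ∀ s : ℝ, (PB 1).indicator (Fk X Z) (x, s) =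
      (Ioo 0 h').indicator (fun s => Fk X Z (x, s)) s := by
    intro s
    by_cases h : ((x, s) : ℝ × ℝ) ∈ PB 1
    · rw [indicator_of_mem h, indicator_of_mem (by exact (hs s).1 h)]
    · rw [indicator_of_notMem h,
        indicator_of_notMem (show s ∉ Ioo 0 h' from fun h' => h ((hs s).2 h'))]
  simp_rw [h1]
  rw [integral_indicator measurableSet_Ioo, ← integral_Ioc_eq_integral_Ioo,
    ← intervalIntegral.integral_of_le hh]
  have h2 : x - X = -(X - x) := by ring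
  rw [h2, Th_neg, ← inner (X - x) h' Z (sub_ne_zero.2 hx.symm)]
  rfl

theorem g_iff (x s : ℝ) : ((x, s) : ℝ × ℝ) ∈ PB 1 ↔ 0 < s ∧
    48 * |x| + 896 * s < 3482752 ∧ 144 * |x| + 880 * s < 3507344 ∧
    234 * |x| + 846 * s < 3541554 ∧ 317 * |x| + 793 * s < 3575747 ∧
    385 * |x| + 720 * s < 3578455 ∧ 434 * |x| + 633 * s < 3541037 ∧
    465 * |x| + 536 * s < 3463320 ∧ 472 * |x| + 434 * s < 3310728 ∧
    454 * |x| + 329 * s < 3061704 ∧ 410 * |x| + 228 * s < 2700422 ∧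
    333 * |x| + 134 * s < 2166451 ∧ 191 * |x| + 46 * s < 1236725 := by
  unfold PB g Es
  simp only [gE, mem_ofPred_eq, max_lt_iff, Nat.cast_ofNat]
  constructor
  · rintro ⟨h0, h1, h2, h3, h4, h5, h6, h7, h8, h9, h10, h11, h12, -⟩
    rw [div_lt_one (by norm_num)] at h1 h2 h3 h4 h5 h6 h7 h8 h9 h10 h11 h12
    exact ⟨h0, h1, h2, h3, h4, h5, h6, h7, h8, h9, h10, h11, h12⟩
  · rintro ⟨h0, h1, h2, h3, h4, h5, h6, h7, h8, h9, h10, h11, h12⟩
    refine ⟨h0, ?_, ?_, ?_, ?_, ?_, ?_, ?_, ?_, ?_, ?_, ?_, ?_, zero_lt_one⟩ <;>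
      rw [div_lt_one (by norm_num)] <;> assumption

theorem piece (X Z : ℝ) (x0 h0 x1 h1 : ℕ) (hx : x0 < x1)
    (hgeo : ∀ x s : ℝ, (x0 : ℝ) ≤ |x| → |x| ≤ x1 → (((x, s) : ℝ × ℝ) ∈ PB 1 ↔
      0 < s ∧ ((h0 : ℝ) - h1) * |x| + ((x1 : ℝ) - x0) * s < (x1 : ℝ) * h0 - x0 * h1)) :
    ∫ x in (x0 : ℝ)..(x1 : ℝ), (cc X Z x + cc X Z (-x)) =
    ∫ x in (x0 : ℝ)..(x1 : ℝ),
      (Th (x - X) (h0 + ((h1 : ℝ) - h0) * ((x - x0) / ((x1 : ℝ) - x0))) Z +
       Th (x + X) (h0 + ((h1 : ℝ) - h0) * ((x - x0) / ((x1 : ℝ) - x0))) Z) := by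
  have hx' : (x0 : ℝ) < x1 := by exact_mod_cast hx
  have hd : 0 < (x1 : ℝ) - x0 := by linarith
  apply intervalIntegral.integral_congr_ae
  have hne : ∀ᵐ x : ℝ, x ≠ X ∧ x ≠ -X := by
    have h1 : ∀ᵐ x : ℝ, x ≠ X := by simp [ae_iff, measure_singleton]
    have h2 : ∀ᵐ x : ℝ, x ≠ -X := by simp [ae_iff, measure_singleton]
    exact h1.and h2
  filter_upwards [hne] with x hne hxm
  rw [uIoc_of_le hx'.le] at hxm
  have hx0 : (0 : ℝ) ≤ x := le_trans (Nat.cast_nonneg x0) hxm.1.le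
  set h : ℝ := h0 + ((h1 : ℝ) - h0) * ((x - x0) / ((x1 : ℝ) - x0)) with hh
  have hh0 : 0 ≤ h := by
    have e1 : 0 ≤ (x - x0) / ((x1 : ℝ) - x0) := div_nonneg (by linarith [hxm.1]) hd.le
    have e2 : (x - x0) / ((x1 : ℝ) - x0) ≤ 1 := (div_le_one hd).2 (by linarith [hxm.2])
    have e3 : (0 : ℝ) ≤ h0 := Nat.cast_nonneg _
    have e4 : (0 : ℝ) ≤ h1 := Nat.cast_nonneg _
    have : h = h0 * (1 - (x - x0) / ((x1 : ℝ) - x0)) + h1 * ((x - x0) / ((x1 : ℝ) - x0)) := by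
      rw [hh]; ring
    rw [this]
    have := mul_nonneg e3 (sub_nonneg.2 e2)
    have := mul_nonneg e4 e1
    linarith
  have hkey : ∀ y s : ℝ, |y| = x → (((y, s) : ℝ × ℝ) ∈ PB 1 ↔ 0 < s ∧ s < h) := by
    intro y s hy
    rw [hgeo y s (by rw [hy]; exact hxm.1.le) (by rw [hy]; exact hxm.2), hy]
    apply and_congr_right
    intro _
    have e5 : h * ((x1 : ℝ) - x0) = (x1 : ℝ) * h0 - x0 * h1 - ((h0 : ℝ) - h1) * x := by
      rw [hh]
      field_simp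
      ring
    constructor
    · intro hlt
      have : s * ((x1 : ℝ) - x0) < h * ((x1 : ℝ) - x0) := by rw [e5]; linarith
      exact lt_of_mul_lt_mul_right this hd.le
    · intro hlt
      have := mul_lt_mul_of_pos_right hlt hd
      rw [e5] at this
      linarith
  rw [cc_eq X Z x h hne.1 hh0 (fun s => hkey x s (abs_of_nonneg hx0)),
    cc_eq X Z (-x) h (fun h' => hne.2 (by rw [← h']; ring)) hh0
      (fun s => hkey (-x) s (by rw [abs_neg, abs_of_nonneg hx0]))]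
  congr 1
  rw [show -x - X = -(x + X) by ring, Th_neg]

end VD.M_P1b

namespace VD

open M_P1b in
/-- column formula for phi of the polygon (Fubini, one inner integral, split at the vertices), Z>0 -/
theorem mP1b (hK0 : StK0) (hK1 : StK1) (hK2 : StK2) (hP0 : StP0) : StP1b := by
  intro X Z hZ
  obtain ⟨hDM, -, -, -, -⟩ := hP0.2.2.2.2.2.2 1 one_pos
  have hint := (hK2 (PB 1) hDM.meas hDM.sub hDM.vol (X, Z) hZ.le).1
  have hZ' : (0 : ℝ) < 4 * Real.pi * Z := by positivity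
  have hN : ∀ y : ℝ × ℝ, Fk X Z y = 4 * Real.pi * Z * N (X, Z) y := by
    intro y
    unfold N G Fk
    rw [if_neg hZ.ne']
    have := Real.pi_pos.ne'
    have := hZ.ne'
    field_simp
  have hF : IntegrableOn (Fk X Z) (PB 1) := by
    have : Fk X Z = fun y => 4 * Real.pi * Z * N (X, Z) y := funext hN
    rw [this]
    exact hint.const_mul _
  have hF' : Integrable ((PB 1).indicator (Fk X Z)) := (integrable_indicator_iff hDM.meas).2 hF
  have e1 : 4 * Real.pi * Z * phi (PB 1) (X, Z) = ∫ x, cc X Z x := by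
    unfold phi
    rw [← integral_const_mul]
    have : (fun y => 4 * Real.pi * Z * N (X, Z) y) = Fk X Z := (funext hN).symm
    rw [this, ← integral_indicator hDM.meas]
    exact integral_prod _ hF'
  have hci : Integrable (cc X Z) := hF'.integral_prod_left
  have hout : ∀ x : ℝ, 6475 ≤ |x| → cc X Z x = 0 := by
    intro x hx
    unfold cc
    have : ∀ s : ℝ, (PB 1).indicator (Fk X Z) (x, s) = 0 := by
      intro s
      apply indicator_of_notMem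
      rw [g_iff]
      rintro ⟨h0, -, -, -, -, -, -, -, -, -, -, -, h12⟩
      linarith
    simp [this]
  have e2 : ∫ x, cc X Z x = ∫ x in (-6475 : ℝ)..6475, cc X Z x := by
    rw [intervalIntegral.integral_of_le (by norm_num)]
    symm
    apply setIntegral_eq_integral_of_forall_compl_eq_zero
    intro x hx
    apply hout
    rw [mem_Ioc, not_and_or, not_lt, not_le] at hx
    rcases hx with h | h
    · rw [abs_of_nonpos (by linarith)]; linarith
    · rw [abs_of_nonneg (by linarith)]; exact h.le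
  have hii : ∀ a b : ℝ, IntervalIntegrable (cc X Z) volume a b := fun a b => hci.intervalIntegrable
  have hcn : Integrable (fun x => cc X Z (-x)) := hci.comp_neg
  have hii' : ∀ a b : ℝ, IntervalIntegrable (fun x => cc X Z (-x)) volume a b :=
    fun a b => hcn.intervalIntegrable
  have e3 : ∫ x in (-6475 : ℝ)..6475, cc X Z x =
      ∫ x in (0 : ℝ)..6475, (cc X Z x + cc X Z (-x)) := by
    rw [intervalIntegral.integral_add (hii _ _) (hii' _ _)]
    rw [← intervalIntegral.integral_add_adjacent_intervals (hii (-6475) 0) (hii 0 6475)]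
    rw [intervalIntegral.integral_comp_neg (fun x => cc X Z x), neg_zero, add_comm]
  have hs : ∀ a b : ℝ, IntervalIntegrable (fun x => cc X Z x + cc X Z (-x)) volume a b :=
    fun a b => (hii a b).add (hii' a b)
  have hadd : ∀ a b c : ℝ, ∫ x in a..c, (cc X Z x + cc X Z (-x)) =
      (∫ x in a..b, (cc X Z x + cc X Z (-x))) + ∫ x in b..c, (cc X Z x + cc X Z (-x)) :=
    fun a b c => (intervalIntegral.integral_add_adjacent_intervals (hs a b) (hs b c)).symm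
  rw [e1, e2, e3]
  have p1 := piece X Z 0 3887 896 3839 (by norm_num) (by
    intro x s h0 h1; rw [g_iff]; push_cast at h0 h1 ⊢
    constructor
    · rintro ⟨k0, k1, -⟩; exact ⟨k0, by linarith⟩
    · rintro ⟨k0, k1⟩
      refine ⟨k0, ?_, ?_, ?_, ?_, ?_, ?_, ?_, ?_, ?_, ?_, ?_, ?_⟩ <;> linarith)
  have p2 := piece X Z 896 3839 1776 3695 (by norm_num) (by
    intro x s h0 h1; rw [g_iff]; push_cast at h0 h1 ⊢
    constructor
    · rintro ⟨k0, -, k1, -⟩; exact ⟨k0, by linarith⟩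
    · rintro ⟨k0, k1⟩
      refine ⟨k0, ?_, ?_, ?_, ?_, ?_, ?_, ?_, ?_, ?_, ?_, ?_, ?_⟩ <;> linarith)
  have p3 := piece X Z 1776 3695 2622 3461 (by norm_num) (by
    intro x s h0 h1; rw [g_iff]; push_cast at h0 h1 ⊢
    constructor
    · rintro ⟨k0, -, -, k1, -⟩; exact ⟨k0, by linarith⟩
    · rintro ⟨k0, k1⟩
      refine ⟨k0, ?_, ?_, ?_, ?_, ?_, ?_, ?_, ?_, ?_, ?_, ?_, ?_⟩ <;> linarith)
  have p4 := piece X Z 2622 3461 3415 3144 (by norm_num) (by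
    intro x s h0 h1; rw [g_iff]; push_cast at h0 h1 ⊢
    constructor
    · rintro ⟨k0, -, -, -, k1, -⟩; exact ⟨k0, by linarith⟩
    · rintro ⟨k0, k1⟩
      refine ⟨k0, ?_, ?_, ?_, ?_, ?_, ?_, ?_, ?_, ?_, ?_, ?_, ?_⟩ <;> linarith)
  have p5 := piece X Z 3415 3144 4135 2759 (by norm_num) (by
    intro x s h0 h1; rw [g_iff]; push_cast at h0 h1 ⊢
    constructor
    · rintro ⟨k0, -, -, -, -, k1, -⟩; exact ⟨k0, by linarith⟩
    · rintro ⟨k0, k1⟩
      refine ⟨k0, ?_, ?_, ?_, ?_, ?_, ?_, ?_, ?_, ?_, ?_, ?_, ?_⟩ <;> linarith)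
  have p6 := piece X Z 4135 2759 4768 2325 (by norm_num) (by
    intro x s h0 h1; rw [g_iff]; push_cast at h0 h1 ⊢
    constructor
    · rintro ⟨k0, -, -, -, -, -, k1, -⟩; exact ⟨k0, by linarith⟩
    · rintro ⟨k0, k1⟩
      refine ⟨k0, ?_, ?_, ?_, ?_, ?_, ?_, ?_, ?_, ?_, ?_, ?_, ?_⟩ <;> linarith)
  have p7 := piece X Z 4768 2325 5304 1860 (by norm_num) (by
    intro x s h0 h1; rw [g_iff]; push_cast at h0 h1 ⊢
    constructor
    · rintro ⟨k0, -, -, -, -, -, -, k1, -⟩; exact ⟨k0, by linarith⟩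
    · rintro ⟨k0, k1⟩
      refine ⟨k0, ?_, ?_, ?_, ?_, ?_, ?_, ?_, ?_, ?_, ?_, ?_, ?_⟩ <;> linarith)
  have p8 := piece X Z 5304 1860 5738 1388 (by norm_num) (by
    intro x s h0 h1; rw [g_iff]; push_cast at h0 h1 ⊢
    constructor
    · rintro ⟨k0, -, -, -, -, -, -, -, k1, -⟩; exact ⟨k0, by linarith⟩
    · rintro ⟨k0, k1⟩
      refine ⟨k0, ?_, ?_, ?_, ?_, ?_, ?_, ?_, ?_, ?_, ?_, ?_, ?_⟩ <;> linarith)
  have p9 := piece X Z 5738 1388 6067 934 (by norm_num) (by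
    intro x s h0 h1; rw [g_iff]; push_cast at h0 h1 ⊢
    constructor
    · rintro ⟨k0, -, -, -, -, -, -, -, -, k1, -⟩; exact ⟨k0, by linarith⟩
    · rintro ⟨k0, k1⟩
      refine ⟨k0, ?_, ?_, ?_, ?_, ?_, ?_, ?_, ?_, ?_, ?_, ?_, ?_⟩ <;> linarith)
  have p10 := piece X Z 6067 934 6295 524 (by norm_num) (by
    intro x s h0 h1; rw [g_iff]; push_cast at h0 h1 ⊢
    constructor
    · rintro ⟨k0, -, -, -, -, -, -, -, -, -, k1, -⟩; exact ⟨k0, by linarith⟩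
    · rintro ⟨k0, k1⟩
      refine ⟨k0, ?_, ?_, ?_, ?_, ?_, ?_, ?_, ?_, ?_, ?_, ?_, ?_⟩ <;> linarith)
  have p11 := piece X Z 6295 524 6429 191 (by norm_num) (by
    intro x s h0 h1; rw [g_iff]; push_cast at h0 h1 ⊢
    constructor
    · rintro ⟨k0, -, -, -, -, -, -, -, -, -, -, k1, -⟩; exact ⟨k0, by linarith⟩
    · rintro ⟨k0, k1⟩
      refine ⟨k0, ?_, ?_, ?_, ?_, ?_, ?_, ?_, ?_, ?_, ?_, ?_, ?_⟩ <;> linarith)
  have p12 := piece X Z 6429 191 6475 0 (by norm_num) (by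
    intro x s h0 h1; rw [g_iff]; push_cast at h0 h1 ⊢
    constructor
    · rintro ⟨k0, -, -, -, -, -, -, -, -, -, -, -, k1⟩; exact ⟨k0, by linarith⟩
    · rintro ⟨k0, k1⟩
      refine ⟨k0, ?_, ?_, ?_, ?_, ?_, ?_, ?_, ?_, ?_, ?_, ?_, ?_⟩ <;> linarith)
  push_cast at p1 p2 p3 p4 p5 p6 p7 p8 p9 p10 p11 p12
  rw [hadd 0 896 6475, hadd 896 1776 6475, hadd 1776 2622 6475, hadd 2622 3415 6475, hadd 3415 4135 6475, hadd 4135 4768 6475, hadd 4768 5304 6475, hadd 5304 5738 6475, hadd 5738 6067 6475, hadd 6067 6295 6475, hadd 6295 6429 6475]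
  rw [p1, p2, p3, p4, p5, p6, p7, p8, p9, p10, p11, p12]
  unfold Vs
  simp only [colS]
  push_cast
  ring

end VD
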